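import Mathlib
import Pool.Agent.Helper198.PartM

set_option autoImplicit false

namespace Pool.Agent.Results.MP_322e80_ag.Realise

/-- The Zariski tangent space of the affine variety with coordinate ring `R` at the `ℂ`-point
`x : R →ₐ[ℂ] ℂ`: the space of point derivations of `R` at `x`. -/
def TangentAt {R : Type} [CommRing R] [Algebra ℂ R] (x : R →ₐ[ℂ] ℂ) :
    Submodule ℂ (R →ₗ[ℂ] ℂ) where
  carrier := {D | ∀ f g : R, D (f * g) = x f * D g + x g * D f}
  add_mem' := by
    intro a b ha hb f g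
    simp only [LinearMap.add_apply, ha f g, hb f g]; ring
  zero_mem' := by intro f g; simp
  smul_mem' := by
    intro c a ha f g
    simp only [LinearMap.smul_apply, ha f g, smul_eq_mul]; ring

/-- The left action of `G` on the `ℂ`-points of `X = Spec R` when `G` acts on the functions by
`α`: the point `g x` is `f ↦ x (α g⁻¹ f)`. -/
def onPoint {G R : Type} [Group G] [CommRing R] [Algebra ℂ R] (α : G →* (R ≃ₐ[ℂ] R)) (g : G)
    (x : R →ₐ[ℂ] ℂ) : R →ₐ[ℂ] ℂ :=
  x.comp (α g⁻¹).toAlgHom

/-- The left action of `G` on linear functionals of `R`, in particular on tangent vectors: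
`g D` is `f ↦ D (α g⁻¹ f)`. -/
def onTangent {G R : Type} [Group G] [CommRing R] [Algebra ℂ R] (α : G →* (R ≃ₐ[ℂ] R)) (g : G)
    (D : R →ₗ[ℂ] ℂ) : R →ₗ[ℂ] ℂ :=
  D.comp (α g⁻¹).toLinearMap

/-- The subgroup `H` fixes the point `x`, and the tangent space at `x`, with its isotropy action
of `H`, is isomorphic to the representation `ρ`. -/
def HasIsotropy {G R : Type} [Group G] [CommRing R] [Algebra ℂ R] (α : G →* (R ≃ₐ[ℂ] R))
    (H : Subgroup G) {V : Type} [AddCommGroup V] [Module ℂ V] (ρ : Representation ℂ H V)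
    (x : R →ₐ[ℂ] ℂ) : Prop :=
  (∀ h : H, onPoint α h x = x) ∧
    ∃ e : V ≃ₗ[ℂ] TangentAt x, ∀ (h : H) (v : V),
      (e (ρ h v) : R →ₗ[ℂ] ℂ) = onTangent α h (e v)

/-- Every choice of finite group, subgroups and faithful representations of the same dimension
`d ≥ 1` is realised by an affine irreducible `d`-dimensional `G`-variety `X = Spec R`. -/
theorem result (G : Type) [Group G] [Finite G] (r : ℕ) (H : Fin r → Subgroup G)
    (d : ℕ) (hd : 1 ≤ d) (V : Fin r → Type) [∀ i, AddCommGroup (V i)] [∀ i, Module ℂ (V i)]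
    (hV : ∀ i, Module.finrank ℂ (V i) = d) (ρ : ∀ i, Representation ℂ (H i) (V i))
    (hρ : ∀ i, Function.Injective (ρ i)) :
    ∃ (R : Type) (_ : CommRing R) (_ : Algebra ℂ R) (α : G →* (R ≃ₐ[ℂ] R)),
      IsDomain R ∧ Algebra.FiniteType ℂ R ∧ ringKrullDim R = (d : WithBot ℕ∞) ∧
      ∃ x : Fin r → (R →ₐ[ℂ] ℂ), Function.Injective x ∧
        ∀ i : Fin r, HasIsotropy α (H i) (ρ i) (x i) := by
  classical
  rcases Nat.eq_zero_or_pos r with hr | hr
  · subst hr
    refine ⟨MvPolynomial (Fin d) ℂ, inferInstance, inferInstance, 1, inferInstance, inferInstance,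
      ?_, fun i => i.elim0, fun i => i.elim0, fun i => i.elim0⟩
    rw [MvPolynomial.ringKrullDim_of_isNoetherianRing, ringKrullDim_eq_zero_of_field, zero_add,
      Nat.card_fin]
  · have hne : Nonempty (Fin r) := ⟨⟨0, hr⟩⟩
    have hfin : ∀ i, Module.Finite ℂ (V i) := fun i =>
      Module.finite_of_finrank_pos (by rw [hV i]; exact hd)
    let b : ∀ i, Module.Basis (Fin d) ℂ (V i) := fun i => Module.finBasisOfFinrankEq ℂ (V i) (hV i)
    let ρm : ∀ i, H i →* Matrix (Fin d) (Fin d) ℂ := fun i =>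
      ((LinearMap.toMatrixAlgEquiv (b i)) : (V i →ₗ[ℂ] V i) →* Matrix (Fin d) (Fin d) ℂ).comp (ρ i)
    have hρm : ∀ i, Function.Injective (ρm i) := fun i =>
      (LinearMap.toMatrixAlgEquiv (b i)).injective.comp (hρ i)
    obtain ⟨R, r1, r2, r3, r4, α, x, e1, e2, e3, e4⟩ :=
      Pool.Agent.Helper198.matrix_version G (Fin r) d hd H ρm hρm
    refine ⟨R, r1, r3, α, r2, r4, e1, x, e2, fun i => ⟨fun h => AlgHom.ext fun f => ?_, ?_⟩⟩
    · have := e3 i h⁻¹ f
      change x i (α (h : G)⁻¹ f) = x i f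
      simpa using this
    · obtain ⟨e, he⟩ := e4 i
      let E : V i ≃ₗ[ℂ] TangentAt (x i) := (b i).equivFun.trans e.symm
      refine ⟨E, fun h v => LinearMap.ext fun f => ?_⟩
      -- the translated derivation
      let D : Pool.Agent.Helper198.tangentSpace (x i) := e.symm ((b i).equivFun v)
      have hfix : ∀ f, x i (α (h : G)⁻¹ f) = x i f := by
        intro f
        have := e3 i h⁻¹ f
        simpa using this
      let D' : Pool.Agent.Helper198.tangentSpace (x i) :=
        ⟨D.1.comp (α (h : G)⁻¹ : R ≃ₐ[ℂ] R).toLinearMap, by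
          intro f g
          have h1 := D.2 (α (h : G)⁻¹ f) (α (h : G)⁻¹ g)
          simp only [LinearMap.comp_apply, AlgEquiv.toLinearMap_apply, map_mul]
          rw [h1, hfix, hfix]⟩
      have h2 : e D' = (b i).equivFun (ρ i h v) := by
        funext a
        rw [he h D D' (fun f => rfl) a]
        have h3 : e D = (b i).equivFun v := e.apply_symm_apply _
        rw [h3]
        exact congrFun (LinearMap.toMatrix_mulVec_repr (b i) (b i) (ρ i h) v) a
      have h5 : e.symm ((b i).equivFun (ρ i h v)) = D' := by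
        rw [← h2, e.symm_apply_apply]
      change (e.symm ((b i).equivFun (ρ i h v))).1 f = D.1 (α (h : G)⁻¹ f)
      rw [h5]
      rfl

end Pool.Agent.Results.MP_322e80_ag.Realise
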